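import Pool.Agent.Lib.MP_1a91b9_ntX.AN.Val

/-!
# Analysis for `y² = x³ + D`: the normalised value is a unit above almost all primes
-/

set_option autoImplicit false

namespace Pool.Agent.Lib.MP_1a91b9_ntX.AN

open NumberField IsDedekindDomain Module Polynomial Pool.Agent.Lib.MP_1a91b9_nt
  Pool.Agent.Lib.MP_1a91b9_ntT Pool.Agent.Lib.MP_1a91b9_ntT.S4 Pool.Agent.Lib.MP_1a91b9_ntG

universe u

/-- An element which is integral at all the valuations above a prime is algebraic. -/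
theorem algebraic_of_val {z : ℂ} {q : ℕ} (hq : q.Prime)
    (h : ∀ W : ValuationSubring ℂ, (q : ℂ)⁻¹ ∉ W → z ∈ W) : IsAlgebraic ℤ z := by
  by_contra hz
  have hz' : Transcendental ℤ z⁻¹ := by
    intro h1
    have h2 := h1.inv
    rw [inv_inv] at h2
    exact hz h2
  have hinj : Function.Injective (aeval z⁻¹ : ℤ[X] →ₐ[ℤ] ℂ) := transcendental_iff_injective.1 hz'
  have hfact : Fact q.Prime := ⟨hq⟩
  let φ : ℤ[X] →+* ℂ := (aeval z⁻¹ : ℤ[X] →ₐ[ℤ] ℂ).toRingHom
  have hφ : Function.Injective φ := hinj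
  let e : ℤ[X] ≃+* φ.range := RingEquiv.ofBijective φ.rangeRestrict
    ⟨fun a b hab => hφ (congrArg Subtype.val hab), φ.rangeRestrict_surjective⟩
  have he : ∀ a, ((e a : φ.range) : ℂ) = φ a := fun a => rfl
  let ψ : φ.range →+* ZMod q :=
    (eval₂RingHom (Int.castRingHom (ZMod q)) 0).comp e.symm.toRingHom
  have hker : RingHom.ker ψ ≠ ⊤ := RingHom.ker_ne_top ψ
  obtain ⟨B, -, hB⟩ := Ideal.image_subset_nonunits_valuationSubring (A := φ.range)
    (RingHom.ker ψ) hker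
  have hmem : ∀ a : ℤ[X], eval₂ (Int.castRingHom (ZMod q)) 0 a = 0 → φ a ∈ B.nonunits := by
    intro a ha
    apply hB
    refine ⟨e a, ?_, he a⟩
    change ψ (e a) = 0
    change eval₂ (Int.castRingHom (ZMod q)) 0 (e.symm (e a)) = 0
    rw [e.symm_apply_apply]
    exact ha
  have h1 : (q : ℂ) ∈ B.nonunits := by
    have h2 := hmem (C (q : ℤ)) (by simp)
    have e1 : φ (C (q : ℤ)) = (q : ℂ) := by
      change aeval z⁻¹ (C (q : ℤ)) = _
      rw [aeval_C]
      simp
    rwa [e1] at h2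
  have h2 : z⁻¹ ∈ B.nonunits := by
    have h2 := hmem X (by simp)
    have e1 : φ X = z⁻¹ := by
      change aeval z⁻¹ (X : ℤ[X]) = _
      rw [aeval_X]
    rwa [e1] at h2
  have hz0 : z ≠ 0 := by
    rintro rfl
    exact hz isAlgebraic_zero
  have h3 : z ∈ B := h B (by
    rw [ValuationSubring.mem_nonunits_iff_or] at h1
    rcases h1 with h1 | h1
    · exact absurd h1 (by exact_mod_cast hq.ne_zero)
    · exact h1)
  rw [ValuationSubring.mem_nonunits_iff_or] at h2
  rcases h2 with h2 | h2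
  · exact hz0 (inv_eq_zero.1 h2)
  · rw [inv_inv] at h2
    exact h2 h3

/-- a natural denominator -/
theorem exists_den {y : ℂ} (h1 : IsAlgebraic ℤ y) : ∃ D : ℕ, D ≠ 0 ∧ IsIntegral ℤ ((D : ℂ) * y) := by
  obtain ⟨d, hd, h⟩ := h1.exists_integral_multiple
  refine ⟨d.natAbs, Int.natAbs_ne_zero.2 hd, ?_⟩
  rcases Int.natAbs_eq d with h3 | h3
  · rw [h3, zsmul_eq_mul, Int.cast_natCast] at h
    exact h
  · rw [h3, zsmul_eq_mul, Int.cast_neg, neg_mul, Int.cast_natCast] at h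
    have h4 := h.neg
    rwa [neg_neg] at h4

/-- a nonzero algebraic number is a unit above almost all primes -/
theorem unit_almost_alg {y : ℂ} (hy : y ≠ 0) (h : IsAlgebraic ℤ y) :
    ∃ D : ℕ, D ≠ 0 ∧ ∀ ℓ : ℕ, ℓ.Prime → ¬ ℓ ∣ D → ∀ W : ValuationSubring ℂ, (ℓ : ℂ)⁻¹ ∉ W →
      W.valuation y = 1 := by
  obtain ⟨D1, hD1, h1⟩ := exists_den h
  obtain ⟨D2, hD2, h2⟩ := exists_den h.inv
  refine ⟨D1 * D2, mul_ne_zero hD1 hD2, fun ℓ hℓ hd W hW => ?_⟩
  have hc1 : D1.Coprime ℓ :=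
    Nat.Coprime.symm ((Nat.Prime.coprime_iff_not_dvd hℓ).2 fun h3 => hd (h3.mul_right _))
  have hc2 : D2.Coprime ℓ :=
    Nat.Coprime.symm ((Nat.Prime.coprime_iff_not_dvd hℓ).2 fun h3 => hd (h3.mul_left _))
  have h3 : W.valuation y ≤ 1 := by
    have h4 := val_integral W h1
    rwa [map_mul, val_coprime W hW D1 hc1, one_mul] at h4
  have h3' : W.valuation y⁻¹ ≤ 1 := by
    have h4 := val_integral W h2
    rwa [map_mul, val_coprime W hW D2 hc2, one_mul] at h4
  refine le_antisymm h3 ?_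
  have h6 : W.valuation y ≠ 0 := by
    rw [Ne, Valuation.zero_iff]
    exact hy
  rw [map_inv₀] at h3'
  exact (inv_le_one₀ (zero_lt_iff.2 h6)).1 h3'

variable [DD] [HC]

/-- the series of `F` continues and does not vanish at `1` -/
def LGood (F : Type u) [Field F] [NumberField F] [Algebra K F] : Prop :=
  ∃ L : ℂ → ℂ, Differentiable ℂ L ∧ (∀ s : ℂ, 2 < s.re → L s = Lf (psbC F) s) ∧ L 1 ≠ 0

/-- The normalised value at `1` is algebraic. -/
theorem value_alg (F : Type u) [Field F] [NumberField F] [Algebra K F] :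
    ∃ L : ℂ → ℂ, Differentiable ℂ L ∧ (∀ s : ℂ, 2 < s.re → L s = Lf (psbC F) s) ∧
      IsAlgebraic ℤ (L 1 / Om ^ finrank K F) := by
  have h30 : Ideal.span {up HC.f F} ≠ 0 := by
    rw [Ne, Ideal.zero_eq_bot, Ideal.span_singleton_eq_bot]
    intro h
    exact f_ne ((FaithfulSMul.algebraMap_injective (𝓞 K) (𝓞 F)) (by rw [map_zero]; exact h))
  obtain ⟨q, hq, hfq, hm2, hV⟩ := exists_valueProp F (Ideal.span {up HC.f F}) h30
  obtain ⟨ι, hι, J, G, hG, -, hGW, h⟩ := exists_family hq.ne_zero hV (Ideal.span {up HC.f F}) h30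
    up_span_ne_top le_rfl hm2
  refine ⟨fun s => ∑ i, indC (Ideal.span {up HC.f F}) (J i) * G i s, ?_, ?_, ?_⟩
  · exact Differentiable.fun_sum fun i _ => (differentiable_const _).mul (hG i)
  · intro s hs
    change ∑ i, indC (Ideal.span {up HC.f F}) (J i) * G i s = _
    rw [← h (indC _) (fun I hI => indC_of_not hI) (norm_indC_le _) (indC_ray _) s hs]
    have hfin : {v : HeightOneSpectrum (𝓞 F) | Ideal.span {up HC.f F} ≤ v.asIdeal}.Finite := by
      refine (Ideal.finite_factors h30).subset fun v hv => ?_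
      exact Ideal.dvd_iff_le.mpr hv
    rw [Lf_indC _ hfin.toFinset (fun v => by rw [Set.Finite.mem_toFinset]; rfl) s hs]
    have e : ∏ v ∈ hfin.toFinset, (1 - psbC F v.asIdeal *
        (Ideal.absNorm v.asIdeal : ℂ) ^ (-s)) = 1 := by
      refine Finset.prod_eq_one fun v hv => ?_
      rw [Set.Finite.mem_toFinset] at hv
      have hv' : Ideal.span {up HC.f F} ≤ v.asIdeal := hv
      rw [Ideal.span_singleton_le_iff_mem] at hv'
      rw [psbC_bad v hv', zero_mul, sub_zero]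
    rw [e, mul_one]
  · refine algebraic_of_val hq fun W hW => ?_
    change (∑ i, indC (Ideal.span {up HC.f F}) (J i) * G i 1) / Om ^ finrank K F ∈ W
    rw [Finset.sum_div]
    refine sum_mem fun i _ => ?_
    rw [mul_div_assoc]
    refine mul_mem ?_ ((ValuationSubring.valuation_le_one_iff _ _).1 (hGW i W hW))
    rw [indC]
    split_ifs
    · exact one_mem _
    · exact zero_mem _

/-- The unit property for almost all `ℓ`. -/
theorem unit_almost (F : Type u) [Field F] [NumberField F] [Algebra K F] (h : LGood F) :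
    ∃ D : ℕ, D ≠ 0 ∧ ∀ ℓ : ℕ, ℓ.Prime → ¬ ℓ ∣ D → UnitProp ℓ Om F := by
  obtain ⟨g, hg, hg2, hg1⟩ := h
  obtain ⟨L, hL, hL1, hLa⟩ := value_alg F
  have e1 : g = L := entire_eq hg hL fun s hs => by rw [hg2 s hs, hL1 s hs]
  subst e1
  have hne : g 1 / Om ^ finrank K F ≠ 0 := div_ne_zero hg1 (pow_ne_zero _ Om_ne_zero)
  obtain ⟨D, hD, h⟩ := unit_almost_alg hne hLa
  exact ⟨D, hD, fun ℓ hℓ hd => ⟨g, hg, hg2, fun W hW => h ℓ hℓ hd W hW⟩⟩

end Pool.Agent.Lib.MP_1a91b9_ntX.AN
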