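import Pool.Agent.Lib.MP_1a91b9_ntX.AN.Alg
import Pool.Agent.Lib.MP_1a91b9_ntT.DG.ZA

/-!
# Analysis for `y² = x³ + D`: the value at `1` over `K` as a sum over torsion points
-/

set_option autoImplicit false

namespace Pool.Agent.Lib.MP_1a91b9_ntX.AN

open NumberField IsDedekindDomain Module Pool.Agent.Lib.MP_1a91b9_nt Pool.Agent.Lib.MP_1a91b9_ntT
  Pool.Agent.Lib.MP_1a91b9_ntT.S4 Pool.Agent.Lib.MP_1a91b9_ntG
open Pool.Agent.Lib.MP_1a91b9_ntT.DG (ZS exists_Z summable_Z summable_all)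

section
variable [DD] [HC]

theorem psi_self (I : Ideal (𝓞 K)) : psi K I = ps I := by
  obtain ⟨g, hg⟩ := (IsPrincipalIdealRing.principal I).principal
  have hg' : I = Ideal.span {g} := hg
  subst hg'
  have h1 : (nK (F := K) g : 𝓞 K) = g := by
    apply RingOfIntegers.ext
    rw [nK_coe, Algebra.norm_self]
    rfl
  rw [psi, relNorm_span, h1]

theorem psbC_self (I : Ideal (𝓞 K)) : psbC K I = (starRingEnd ℂ) (embK (ps I : K)) := by
  rw [psbC, psC, psi_self]

/-- the elements fixed by `ps`: the generators of the ideals prime to `f` -/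
def Fx (a : 𝓞 K) : Prop := ps (Ideal.span {a}) = a

theorem Fx.one : Fx (1 : 𝓞 K) := by
  rw [Fx, Ideal.span_singleton_one, ← Ideal.one_eq_top]
  exact ps_one

theorem Fx.mul {a b : 𝓞 K} (ha : Fx a) (hb : Fx b) : Fx (a * b) := by
  rw [Fx, ← Ideal.span_singleton_mul_span_singleton, ps_mul, ha, hb]

theorem Fx.ray {a : 𝓞 K} (ha : HC.f ∣ a - 1) : Fx a := HC.hd.ray a ha

/-- the property depends only on the class modulo `f` -/
theorem Fx.congr {a b : 𝓞 K} (ha : Fx a) (hc : IsCoprime a HC.f) (h : HC.f ∣ b - a) : Fx b := by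
  obtain ⟨ε, hε⟩ := exists_eps a hc
  have h1 := hε a (by rw [sub_self]; exact dvd_zero _)
  have ha0 : a ≠ 0 := by
    rintro rfl
    rw [isCoprime_zero_left] at hc
    exact f_not_isUnit hc
  have h2 : (ε : 𝓞 K) = 1 := by
    refine mul_right_cancel₀ ha0 ?_
    rw [← h1, one_mul]
    exact ha
  have h3 := hε b h
  rwa [h2, one_mul] at h3

theorem Fx.coprime {a : 𝓞 K} (ha : Fx a) (ha0 : a ≠ 0) : IsCoprime a HC.f := by
  by_contra h
  rw [← Ideal.isCoprime_span_singleton_iff] at h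
  have h1 := ps_of_not_coprime _ h
  rw [Fx] at ha
  rw [ha] at h1
  exact ha0 h1

theorem fx_ps (I : Ideal (𝓞 K)) (hI : IsCoprime I (Ideal.span {HC.f})) : Fx (ps I) := by
  rw [Fx, span_ps I hI]

theorem Fx.inj {a b : 𝓞 K} (ha : Fx a) (hb : Fx b) (h : Ideal.span {a} = Ideal.span {b}) :
    a = b := by
  rw [Fx] at ha hb
  rw [← ha, ← hb, h]

/-- a unit fixed by `ps` is `1` -/
theorem Fx.unit {u : (𝓞 K)ˣ} (hu : Fx (u : 𝓞 K)) : u = 1 := by
  apply Units.ext
  rw [Units.val_one]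
  refine hu.inj Fx.one ?_
  rw [Ideal.span_singleton_one, Ideal.span_singleton_eq_top]
  exact u.isUnit

end

/-- the summand of `ZS` -/
private noncomputable def es_T (c x : 𝓞 K) (s : ℂ) (a : 𝓞 K) : ℂ :=
  haveI := Classical.dec (c ∣ a - x)
  if c ∣ a - x then (starRingEnd ℂ) (embK (a : K)) * ((‖embK (a : K)‖ : ℝ) : ℂ) ^ (-2 * s) else 0

private theorem es_pos {c x a : 𝓞 K} (s : ℂ) (h : c ∣ a - x) :
    es_T c x s a = (starRingEnd ℂ) (embK (a : K)) * ((‖embK (a : K)‖ : ℝ) : ℂ) ^ (-2 * s) := by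
  unfold es_T
  exact if_pos h

private theorem es_neg {c x a : 𝓞 K} (s : ℂ) (h : ¬ c ∣ a - x) : es_T c x s a = 0 := by
  unfold es_T
  exact if_neg h

private theorem es_cpow {x : ℝ} (hx : 0 ≤ x) (s : ℂ) :
    (((x ^ 2 : ℝ)) : ℂ) ^ (-s) = (x : ℂ) ^ (-2 * s) := by
  have h1 : (((x ^ 2 : ℝ)) : ℂ) = (x : ℂ) * (x : ℂ) := by
    push_cast
    ring
  rw [h1, Complex.mul_cpow_ofReal_nonneg hx hx, ← pow_two]
  have h2 : (-2 * s : ℂ) = ((2 : ℕ) : ℂ) * (-s) := by
    push_cast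
    ring
  rw [h2, Complex.cpow_nat_mul]

private theorem es_norm (a : 𝓞 K) (s : ℂ) :
    (Ideal.absNorm (Ideal.span {a}) : ℂ) ^ (-s) = ((‖embK (a : K)‖ : ℝ) : ℂ) ^ (-2 * s) := by
  have h1 : (Ideal.absNorm (Ideal.span {a}) : ℝ) = ‖embK (a : K)‖ ^ 2 := by
    rw [← bs1_card, Ideal.absNorm_apply, Submodule.cardQuot_apply]
  rw [← es_cpow (norm_nonneg _) s, ← h1]
  rw [Complex.ofReal_natCast]

section
variable [DD] [HC] {ν : 𝓞 K} {ι : Type*} [Fintype ι] {c : ι → 𝓞 K}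

/-- representatives modulo `ν` of the elements prime to `ν` and fixed by `ps` -/
structure Reps (ν : 𝓞 K) (c : ι → 𝓞 K) : Prop where
  ne : ν ≠ 0
  dvd : HC.f ∣ ν
  fx : ∀ i, Fx (c i)
  cop : ∀ i, IsCoprime (c i) ν
  ex : ∀ a : 𝓞 K, IsCoprime a ν → Fx a → ∃ i, ν ∣ a - c i
  inj : ∀ i j, ν ∣ c i - c j → i = j

omit [Fintype ι] in
theorem Reps.of_dvd (h : Reps ν c) {i : ι} {a : 𝓞 K} (ha : ν ∣ a - c i) :
    Fx a ∧ IsCoprime a ν := by
  refine ⟨(h.fx i).congr ((h.cop i).of_isCoprime_of_dvd_right h.dvd) (h.dvd.trans ha), ?_⟩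
  obtain ⟨e, he⟩ := ha
  obtain ⟨p, q, hpq⟩ := h.cop i
  exact ⟨p, q - p * e, by linear_combination p * he + hpq⟩

omit [Fintype ι] in
theorem Reps.not_unit (h : Reps ν c) : ¬ IsUnit ν := fun hu =>
  f_not_isUnit (isUnit_of_dvd_unit h.dvd hu)

omit [Fintype ι] in
theorem Reps.not_dvd (h : Reps ν c) (i : ι) : ¬ ν ∣ c i := by
  rintro ⟨e, he⟩
  obtain ⟨p, q, hpq⟩ := h.cop i
  exact h.not_unit (IsUnit.of_mul_eq_one (p * e + q) (by linear_combination hpq - p * he))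

/-- **The L-series over `K` as a finite sum of the residual series.** -/
theorem Lf_sum (h : Reps ν c) (X : Ideal (𝓞 K) → ℂ)
    (hX : ∀ I, ¬ IsCoprime I (Ideal.span {ν}) → X I = 0) {x : ι → ℂ}
    (hx : ∀ i a, ν ∣ a - c i → X (Ideal.span {a}) = x i) {s : ℂ} (hs : 2 < s.re) :
    Lf (fun I => psbC K I * X I) s = ∑ i, x i * ZS ν (c i) s := by
  classical
  have hR : ∑ i, x i * ZS ν (c i) s = ∑' a : 𝓞 K, ∑ i, x i * es_T ν (c i) s a := by
    have h1 : ∀ i ∈ (Finset.univ : Finset ι), Summable fun a : 𝓞 K => x i * es_T ν (c i) s a :=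
      fun i _ => (summable_Z ν (c i) hs).mul_left _
    rw [Summable.tsum_finsetSum h1]
    refine Finset.sum_congr rfl (fun i _ => ?_)
    rw [tsum_mul_left]
    rfl
  have hkey : ∀ a : 𝓞 K, Fx a → IsCoprime a ν →
      psbC K (Ideal.span {a}) * X (Ideal.span {a}) * (Ideal.absNorm (Ideal.span {a}) : ℂ) ^ (-s) =
        ∑ i, x i * es_T ν (c i) s a := by
    intro a ha hc
    obtain ⟨i0, hi0⟩ := h.ex a hc ha
    rw [Finset.sum_eq_single i0]
    · rw [hx i0 a hi0, es_pos s hi0, es_norm, psbC_self, ha]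
      ring
    · intro i _ hi
      rw [es_neg s, mul_zero]
      intro hd
      apply hi
      apply h.inj
      have e : c i - c i0 = (a - c i0) - (a - c i) := by ring
      rw [e]
      exact dvd_sub hi0 hd
    · intro hh
      exact absurd (Finset.mem_univ _) hh
  rw [hR]
  have hsup : ∀ a : 𝓞 K, (∑ i, x i * es_T ν (c i) s a) ≠ 0 → Fx a ∧ IsCoprime a ν := by
    intro a ha
    obtain ⟨i, _, hi⟩ := Finset.exists_ne_zero_of_sum_ne_zero ha
    have hd : ν ∣ a - c i := by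
      by_contra hd
      apply hi
      rw [es_neg s hd, mul_zero]
    exact h.of_dvd hd
  unfold S4.Lf
  refine tsum_eq_tsum_of_ne_zero_bij
    (fun a : Function.support (fun a : 𝓞 K => ∑ i, x i * es_T ν (c i) s a) =>
      Ideal.span {(a : 𝓞 K)}) ?_ ?_ ?_
  · intro a b hab
    exact Subtype.ext ((hsup a.1 a.2).1.inj (hsup b.1 b.2).1 hab)
  · intro I hI
    have hI' : psbC K I * X I * (Ideal.absNorm I : ℂ) ^ (-s) ≠ 0 := hI
    have hcν : IsCoprime I (Ideal.span {ν}) := by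
      by_contra hc
      apply hI'
      rw [hX I hc, mul_zero, zero_mul]
    have hcf : IsCoprime I (Ideal.span {HC.f}) := by
      refine hcν.of_isCoprime_of_dvd_right ?_
      rw [Ideal.dvd_iff_le, Ideal.span_singleton_le_span_singleton]
      exact h.dvd
    have hsp := span_ps I hcf
    have hcop : IsCoprime (ps I) ν := by
      rw [← hsp] at hcν
      exact (Ideal.isCoprime_span_singleton_iff _ _).1 hcν
    have hk := hkey (ps I) (fx_ps I hcf) hcop
    rw [hsp] at hk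
    refine ⟨⟨ps I, ?_⟩, hsp⟩
    change (∑ i, x i * es_T ν (c i) s (ps I)) ≠ 0
    rw [← hk]
    exact hI'
  · intro a
    obtain ⟨h1, h2⟩ := hsup a.1 a.2
    exact hkey a.1 h1 h2

/-- **The value at `1` as a sum over torsion points.** -/
theorem exists_sum (h : Reps ν c) (X : Ideal (𝓞 K) → ℂ)
    (hX : ∀ I, ¬ IsCoprime I (Ideal.span {ν}) → X I = 0) {x : ι → ℂ}
    (hx : ∀ i a, ν ∣ a - c i → X (Ideal.span {a}) = x i) :
    ∃ A : ℂ → ℂ, Differentiable ℂ A ∧
      (∀ s : ℂ, 2 < s.re → A s = Lf (fun I => psbC K I * X I) s) ∧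
      A 1 = (embK (ν : K))⁻¹ * ∑ i, x i * E1 (embK (c i : K) / embK (ν : K)) := by
  choose A hA hA1 hA2 using fun i => exists_Z h.ne (h.not_dvd i) (HC.hd.three.trans h.dvd)
  refine ⟨fun s => ∑ i, x i * A i s, ?_, fun s hs => ?_, ?_⟩
  · exact Differentiable.fun_sum fun i _ => (differentiable_const _).mul (hA i)
  · rw [Lf_sum h X hX hx hs]
    exact Finset.sum_congr rfl fun i _ => by rw [hA1 i s hs]
  · change ∑ i, x i * A i 1 = _
    rw [Finset.mul_sum]
    refine Finset.sum_congr rfl fun i _ => ?_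
    rw [hA2 i]
    ring

end

section
variable [DD] [HC] {F : Type*} [Field F] [NumberField F] [Algebra K F]

/-- the Euler factors do not vanish at `1` -/
theorem euler_ne (v : HeightOneSpectrum (𝓞 F)) :
    1 - psbC F v.asIdeal * (Ideal.absNorm v.asIdeal : ℂ) ^ (-(1 : ℂ)) ≠ 0 := by
  intro h
  have h1 : psbC F v.asIdeal * (Ideal.absNorm v.asIdeal : ℂ) ^ (-(1 : ℂ)) = 1 :=
    (sub_eq_zero.1 h).symm
  have hn : 1 < Ideal.absNorm v.asIdeal := by
    have h2 : Ideal.absNorm v.asIdeal ≠ 0 :=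
      Ideal.absNorm_ne_zero_iff_mem_nonZeroDivisors.mpr
        (mem_nonZeroDivisors_iff_ne_zero.mpr v.ne_bot)
    have h3 : Ideal.absNorm v.asIdeal ≠ 1 := fun h3 =>
      v.isPrime.ne_top (Ideal.absNorm_eq_one_iff.mp h3)
    omega
  have hn' : (1 : ℝ) < (Ideal.absNorm v.asIdeal : ℝ) := by exact_mod_cast hn
  have h2 := norm_psbC_le v.asIdeal
  have h3 : ‖psbC F v.asIdeal‖ * ((Ideal.absNorm v.asIdeal : ℝ))⁻¹ = 1 := by
    have h4 := congrArg norm h1
    rw [norm_mul, norm_one, Complex.cpow_neg_one, norm_inv, Complex.norm_natCast] at h4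
    exact h4
  have h4 : (Ideal.absNorm v.asIdeal : ℝ) ^ (1 / 2 : ℝ) < (Ideal.absNorm v.asIdeal : ℝ) := by
    calc (Ideal.absNorm v.asIdeal : ℝ) ^ (1 / 2 : ℝ) < (Ideal.absNorm v.asIdeal : ℝ) ^ (1 : ℝ) :=
          Real.rpow_lt_rpow_of_exponent_lt hn' (by norm_num)
      _ = _ := Real.rpow_one _
  have h5 : ‖psbC F v.asIdeal‖ = (Ideal.absNorm v.asIdeal : ℝ) := by
    have h6 : (Ideal.absNorm v.asIdeal : ℝ) ≠ 0 := by positivity
    field_simp at h3
    exact h3
  rw [h5] at h2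
  exact absurd h2 (not_le.mpr h4)

end

section
variable [DD] [HC] {ν : 𝓞 K} {ι : Type*} [Fintype ι] {c : ι → 𝓞 K}

/-- If the series of `K` does not vanish at `1`, the sum over the torsion points is not zero. -/
theorem sum_ne_zero (h : Reps ν c) (hL : LGood K) :
    ∑ i, E1 (embK (c i : K) / embK (ν : K)) ≠ 0 := by
  classical
  obtain ⟨L, hLd, hL1, hL0⟩ := hL
  obtain ⟨A, hA, hA1, hA2⟩ := exists_sum h (indC (Ideal.span {ν})) (fun I hI => indC_of_not hI)
    (x := fun _ => 1) (fun i a ha => by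
      rw [indC_of ((Ideal.isCoprime_span_singleton_iff _ _).2 (h.of_dvd ha).2)])
  have hν0 : Ideal.span {ν} ≠ 0 := by
    rw [Ne, Ideal.zero_eq_bot, Ideal.span_singleton_eq_bot]
    exact h.ne
  have hfin : {v : HeightOneSpectrum (𝓞 K) | Ideal.span {ν} ≤ v.asIdeal}.Finite := by
    refine (Ideal.finite_factors hν0).subset fun v hv => ?_
    exact Ideal.dvd_iff_le.mpr hv
  have e : A = fun s => L s * ∏ v ∈ hfin.toFinset, (1 - psbC K v.asIdeal *
      (Ideal.absNorm v.asIdeal : ℂ) ^ (-s)) := by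
    refine entire_eq hA (hLd.mul (differentiable_euler _ _)) fun s hs => ?_
    rw [hA1 s hs, Lf_indC _ hfin.toFinset (fun v => by rw [Set.Finite.mem_toFinset]; rfl) s hs,
      hL1 s hs]
  have h1 : A 1 ≠ 0 := by
    rw [e]
    change L 1 * _ ≠ 0
    exact mul_ne_zero hL0 (Finset.prod_ne_zero_iff.2 fun v _ => euler_ne v)
  rw [hA2] at h1
  intro h0
  apply h1
  simp only [one_mul]
  rw [h0, mul_zero]

end

end Pool.Agent.Lib.MP_1a91b9_ntX.AN
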