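import Pool.Agent.Lib.MP_1a91b9_ntX.AN.Unfold
import Pool.Agent.Lib.MP_1a91b9_ntG.Family

/-!
# G4: the interface with the values (stream S6), the continuation of the L-series, the base field
-/

set_option autoImplicit false

namespace Pool.Agent.Lib.MP_1a91b9_ntX.AN

open NumberField IsDedekindDomain Pool.Agent.Lib.MP_1a91b9_nt Pool.Agent.Lib.MP_1a91b9_ntT
  Pool.Agent.Lib.MP_1a91b9_ntT.S4 Pool.Agent.Lib.MP_1a91b9_ntG

universe u

/-- The L-series of `ψbar_F` continues and its normalised value at `1` is a unit above `q`. -/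
def UnitProp [DD] [HC] (q : ℕ) (Ω : ℂ) (F : Type u) [Field F] [NumberField F] [Algebra K F] :
    Prop :=
  ∃ L : ℂ → ℂ, Differentiable ℂ L ∧ (∀ s : ℂ, 2 < s.re → L s = Lf (psbC F) s) ∧
    ∀ W : ValuationSubring ℂ, (q : ℂ)⁻¹ ∉ W → W.valuation (L 1 / Ω ^ (Module.finrank K F)) = 1

section
variable [DD] [HC] {F : Type u} [Field F] [NumberField F] [Algebra K F] {q : ℕ}


theorem exists_family (hq0 : q ≠ 0) {Ω : ℂ} (hV : ValueProp HC.f q Ω F) (m : Ideal (𝓞 F))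
    (hm0 : m ≠ 0) (hm1 : m ≠ 1)
    (h3 : m ≤ Ideal.span {up HC.f F}) (h2 : IsCoprime m (Ideal.span {(q : 𝓞 F)})) :
    ∃ (ι : Type u) (_ : Fintype ι) (J : ι → Ideal (𝓞 F)) (G : ι → ℂ → ℂ),
      (∀ i, Differentiable ℂ (G i)) ∧ (∀ i, IsCoprime (J i) m) ∧
      (∀ i, ∀ W : ValuationSubring ℂ, (q : ℂ)⁻¹ ∉ W →
        W.valuation (G i 1 / Ω ^ (Module.finrank K F)) ≤ 1) ∧
      ∀ X : Ideal (𝓞 F) → ℂ, (∀ I, ¬ IsCoprime I m → X I = 0) → (∀ I, ‖X I‖ ≤ 1) →
        (∀ I J, RayEq m I J → X I = X J) → ∀ s : ℂ, 2 < s.re →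
        Lf (fun I => psbC F I * X I) s = ∑ i, X (J i) * G i s := by
  have hc0 : Ideal.span {(q : 𝓞 F)} ≠ 0 := by
    rw [Ne, Ideal.zero_eq_bot, Ideal.span_singleton_eq_bot]
    exact_mod_cast hq0
  obtain ⟨ι, hι, b, t, J, k, h1, h4⟩ := unfold_L (Ideal.span {(q : 𝓞 F)}) m hc0 hm0 hm1 h3
  choose A hA using fun i => hV m (b i) (t i) hm0 h3 h2 (h1 i).1 (h1 i).2.1 (h1 i).2.2.1
    (h1 i).2.2.2.1 (h1 i).2.2.2.2.1
  have hNb : ∀ i, (Ideal.absNorm (b i) : ℂ) ≠ 0 := by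
    intro i
    have := Ideal.absNorm_ne_zero_iff_mem_nonZeroDivisors.mpr
      (mem_nonZeroDivisors_iff_ne_zero.mpr (h1 i).1)
    exact_mod_cast this
  refine ⟨ι, hι, J, fun i s => k i * (Ideal.absNorm (b i) : ℂ) ^ s * A i s, ?_, ?_, ?_, ?_⟩
  · intro i
    refine Differentiable.mul ?_ (hA i).1
    refine Differentiable.mul (differentiable_const _) ?_
    exact (differentiable_id).const_cpow (Or.inl (hNb i))
  · intro i
    exact (h1 i).2.2.2.2.2.1
  · intro i W hW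
    have e : k i * (Ideal.absNorm (b i) : ℂ) ^ (1 : ℂ) * A i 1 / Ω ^ (Module.finrank K F) =
        (k i * (Ideal.absNorm (b i) : ℂ)) * (A i 1 / Ω ^ (Module.finrank K F)) := by
      rw [Complex.cpow_one]; ring
    change W.valuation (k i * (Ideal.absNorm (b i) : ℂ) ^ (1 : ℂ) * A i 1 /
      Ω ^ (Module.finrank K F)) ≤ 1
    rw [e, map_mul]
    exact mul_le_one' (val_integral W (h1 i).2.2.2.2.2.2) ((hA i).2.2 W hW)
  · intro X hX0 hX1 hXr s hs
    rw [h4 A (fun i R hR s hs => (hA i).2.1 R hR s hs) X hX0 hX1 hXr s hs]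
    exact Finset.sum_congr rfl fun i _ => by ring

theorem exists_cont (hq0 : q ≠ 0) (hfq : IsCoprime HC.f (q : 𝓞 K)) {Ω : ℂ}
    (hV : ValueProp HC.f q Ω F) : ∃ L : ℂ → ℂ, Differentiable ℂ L ∧
    ∀ s : ℂ, 2 < s.re → L s = Lf (psbC F) s := by
  have h30 : Ideal.span {up HC.f F} ≠ 0 := by
    rw [Ne, Ideal.zero_eq_bot, Ideal.span_singleton_eq_bot]
    intro h
    exact f_ne ((FaithfulSMul.algebraMap_injective (𝓞 K) (𝓞 F)) (by rw [map_zero]; exact h))
  have h32 : IsCoprime (Ideal.span {up HC.f F}) (Ideal.span {(q : 𝓞 F)}) := by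
    rw [Ideal.isCoprime_span_singleton_iff]
    have h := hfq.map (algebraMap (𝓞 K) (𝓞 F))
    rwa [map_natCast] at h
  obtain ⟨ι, hι, J, G, hG, -, -, h⟩ := exists_family hq0 hV (Ideal.span {up HC.f F}) h30
    up_span_ne_top le_rfl h32
  refine ⟨fun s => ∑ i, indC (Ideal.span {up HC.f F}) (J i) * G i s, ?_, ?_⟩
  · exact Differentiable.fun_sum fun i _ => (differentiable_const _).mul (hG i)
  · intro s hs
    change ∑ i, indC (Ideal.span {up HC.f F}) (J i) * G i s = _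
    rw [← h (indC _) (fun I hI => indC_of_not hI) (norm_indC_le _) (indC_ray _) s hs]
    have hfin : {v : HeightOneSpectrum (𝓞 F) | Ideal.span {up HC.f F} ≤ v.asIdeal}.Finite := by
      refine (Ideal.finite_factors h30).subset fun v hv => ?_
      exact Ideal.dvd_iff_le.mpr hv
    rw [Lf_indC _ hfin.toFinset (fun v => by rw [Set.Finite.mem_toFinset]; rfl) s hs]
    have e : ∏ v ∈ hfin.toFinset, (1 - psbC F v.asIdeal *
        (Ideal.absNorm v.asIdeal : ℂ) ^ (-s)) = 1 := by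
      refine Finset.prod_eq_one fun v hv => ?_
      rw [Set.Finite.mem_toFinset] at hv
      have hv' : Ideal.span {up HC.f F} ≤ v.asIdeal := hv
      rw [Ideal.span_singleton_le_iff_mem] at hv'
      rw [psbC_bad v hv', zero_mul, sub_zero]
    rw [e, mul_one]

end

end Pool.Agent.Lib.MP_1a91b9_ntX.AN
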