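import Pool.Agent.Lib.MP_1a91b9_ntX.HD
import Pool.Agent.Lib.MP_1a91b9_ntG.Psi

/-!
# Analysis for `y² = x³ + D`: the Hecke characters
-/

set_option autoImplicit false

namespace Pool.Agent.Lib.MP_1a91b9_ntX.AN

open NumberField IsDedekindDomain Pool.Agent.Lib.MP_1a91b9_nt Pool.Agent.Lib.MP_1a91b9_ntT
  Pool.Agent.Lib.MP_1a91b9_ntT.S4 Pool.Agent.Lib.MP_1a91b9_ntG

universe u

section
variable [DD] [HC]

/-- the complex value of `ψ_F` -/
noncomputable def psC (F : Type*) [Field F] [NumberField F] [Algebra K F] (I : Ideal (𝓞 F)) : ℂ :=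
  embK (psi F I : K)

/-- the complex value of the conjugate of `ψ_F` -/
noncomputable def psbC (F : Type*) [Field F] [NumberField F] [Algebra K F] (I : Ideal (𝓞 F)) : ℂ :=
  (starRingEnd ℂ) (psC F I)

theorem f_ne : (HC.f : 𝓞 K) ≠ 0 := HC.hd.ne

theorem f_not_isUnit : ¬ IsUnit (HC.f : 𝓞 K) := by
  intro h
  have h3 : IsUnit (3 : 𝓞 K) := isUnit_of_dvd_unit HC.hd.three h
  have h5 : Ideal.span {(3 : 𝓞 K)} = ⊤ := Ideal.span_singleton_eq_top.2 h3
  have e3 := S4.u4_absNorm_p (K := K) 3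
  rw [Nat.cast_ofNat, h5, Ideal.absNorm_top] at e3
  omega

theorem span_ps (I : Ideal (𝓞 K)) (hI : IsCoprime I (Ideal.span {HC.f})) :
    Ideal.span {ps I} = I := HC.hd.span I hI

theorem ps_of_not_coprime (I : Ideal (𝓞 K)) (hI : ¬ IsCoprime I (Ideal.span {HC.f})) :
    ps I = 0 := HC.hd.zero I hI

theorem ps_one : ps 1 = 1 := HC.hd.one

theorem ps_mul (I J : Ideal (𝓞 K)) : ps (I * J) = ps I * ps J := HC.hd.mul I J

/-- the unit attached to a residue class modulo `f` -/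
theorem exists_eps (c : 𝓞 K) (hc : IsCoprime c HC.f) :
    ∃ ε : (𝓞 K)ˣ, ∀ r : 𝓞 K, HC.f ∣ r - c → ps (Ideal.span {r}) = ε * r := by
  obtain ⟨y, z, hyz⟩ := hc
  have hy0 : y ≠ 0 := by
    rintro rfl
    rw [zero_mul, zero_add] at hyz
    exact f_not_isUnit (IsUnit.of_mul_eq_one z (by rw [mul_comm]; exact hyz))
  have hyc : IsCoprime (Ideal.span {y}) (Ideal.span {HC.f}) := by
    rw [Ideal.isCoprime_span_singleton_iff]
    exact ⟨c, z, by linear_combination hyz⟩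
  obtain ⟨u, hu⟩ := Ideal.span_singleton_eq_span_singleton.1 (span_ps _ hyc).symm
  refine ⟨u⁻¹, fun r hr => ?_⟩
  have h1 : HC.f ∣ r * y - 1 := by
    obtain ⟨d, hd⟩ := hr
    exact ⟨d * y - z, by linear_combination y * hd + hyz⟩
  have h2 := HC.hd.ray _ h1
  have h3 : ps (Ideal.span {r}) * ps (Ideal.span {y}) = r * y := by
    rw [← ps_mul, Ideal.span_singleton_mul_span_singleton]
    exact h2
  rw [← hu] at h3
  have h4 : ps (Ideal.span {r}) * u = r := by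
    refine mul_right_cancel₀ hy0 ?_
    linear_combination h3
  calc ps (Ideal.span {r}) = ps (Ideal.span {r}) * u * ((u⁻¹ : (𝓞 K)ˣ) : 𝓞 K) := by
        rw [mul_assoc, Units.mul_inv, mul_one]
    _ = ((u⁻¹ : (𝓞 K)ˣ) : 𝓞 K) * r := by rw [h4, mul_comm]

end

section
variable [DD] [HC] (F : Type*) [Field F] [NumberField F] [Algebra K F]

theorem psC_one : psC F 1 = 1 := by rw [psC, psi_one]; simp

theorem psC_mul (I J : Ideal (𝓞 F)) : psC F (I * J) = psC F I * psC F J := by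
  rw [psC, psi_mul]
  simp [psC]

theorem psC_zero : psC F 0 = 0 := by rw [psC, psi_zero]; simp

theorem psbC_one : psbC F 1 = 1 := by rw [psbC, psC_one, map_one]

theorem psbC_mul (I J : Ideal (𝓞 F)) : psbC F (I * J) = psbC F I * psbC F J := by
  rw [psbC, psC_mul, map_mul]; rfl

theorem psbC_zero : psbC F 0 = 0 := by rw [psbC, psC_zero, map_zero]

end

section
variable [DD] [HC] {F : Type*} [Field F] [NumberField F] [Algebra K F]

/-- `ψ_F` at a place above `f` -/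
theorem psi_place_bad (w : HeightOneSpectrum (𝓞 F)) (h3 : up HC.f F ∈ w.asIdeal) :
    psi F w.asIdeal = 0 := by
  rw [psi]
  apply ps_of_not_coprime
  intro h
  have hle : Ideal.relNorm (𝓞 K) w.asIdeal ≤ w.asIdeal.under (𝓞 K) :=
    Ideal.relNorm_le_comap (𝓞 K) w.asIdeal
  have h3' : HC.f ∈ w.asIdeal.under (𝓞 K) := h3
  have hsup := Ideal.isCoprime_iff_sup_eq.mp h
  have hle2 : Ideal.relNorm (𝓞 K) w.asIdeal ⊔ Ideal.span {HC.f} ≤ w.asIdeal.under (𝓞 K) :=
    sup_le hle ((Ideal.span_singleton_le_iff_mem _).mpr h3')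
  rw [hsup, top_le_iff] at hle2
  have hp : (w.asIdeal.under (𝓞 K)).IsPrime := inferInstance
  exact hp.ne_top hle2

theorem psbC_bad (v : HeightOneSpectrum (𝓞 F)) (h3 : up HC.f F ∈ v.asIdeal) :
    psbC F v.asIdeal = 0 := by
  rw [psbC, psC, psi_place_bad v h3]
  simp

theorem isIntegral_psC (I : Ideal (𝓞 F)) : IsIntegral ℤ (psC F I) := by
  have h : IsIntegral ℤ ((psi F I : 𝓞 K) : K) := RingOfIntegers.isIntegral_coe _
  exact h.map embK.toRingHom.toIntAlgHom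

theorem normsq_psC_of (I : Ideal (𝓞 F))
    (hI : IsCoprime (Ideal.relNorm (𝓞 K) I) (Ideal.span {HC.f})) :
    psC F I * psbC F I = (Ideal.absNorm I : ℂ) := by
  have h1 := span_ps _ hI
  have h2 : Ideal.absNorm (Ideal.relNorm (𝓞 K) I) = Ideal.absNorm I := by
    exact Ideal.absNorm_relNorm (𝓞 K) (𝓞 F) I
  rw [psbC, Complex.mul_conj, Complex.normSq_eq_norm_sq, psC, ← h2, ← h1]
  have h3 : (Ideal.absNorm (Ideal.span {psi F I}) : ℝ) =
      ‖embK ((psi F I : 𝓞 K) : K)‖ ^ 2 := by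
    rw [← norm_K, Ideal.absNorm_span_singleton]
    have h : ((Algebra.norm ℤ (psi F I) : ℤ) : ℚ) = Algebra.norm ℚ ((psi F I : 𝓞 K) : K) :=
      Algebra.coe_norm_int _
    rw [← h, Nat.cast_natAbs]
    push_cast
    rfl
  have h4 : ps (Ideal.relNorm (𝓞 K) I) = psi F I := rfl
  rw [h4, ← h3]
  norm_cast

/-- `ψ_F(I)` generates the norm of `I` -/
theorem psi_spec (I : Ideal (𝓞 F)) (hI : IsCoprime I (Ideal.span {up HC.f F})) :
    IsCoprime (Ideal.relNorm (𝓞 K) I) (Ideal.span {HC.f}) ∧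
    Ideal.span {psi F I} = Ideal.relNorm (𝓞 K) I := by
  have hc : IsCoprime (Ideal.relNorm (𝓞 K) I) (Ideal.span {HC.f}) := by
    obtain ⟨x, hx, y, hy, hxy⟩ := Ideal.isCoprime_iff_exists.mp hI
    rw [Ideal.mem_span_singleton] at hy
    obtain ⟨y', rfl⟩ := hy
    have h1 := nK_congr (F := F) HC.f x 1 ⟨-y', by linear_combination hxy⟩
    rw [nK_one] at h1
    obtain ⟨w, hw⟩ := h1
    have hmem : nK x ∈ Ideal.relNorm (𝓞 K) I := by
      rw [intNorm_eq]
      have hfree : Module.Free (𝓞 K) (𝓞 F) := inferInstance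
      exact Ideal.norm_mem_relNorm (𝓞 K) I hx
    rw [Ideal.isCoprime_iff_exists]
    exact ⟨nK x, hmem, -HC.f * w, by
      rw [Ideal.mem_span_singleton]
      exact ⟨-w, by ring⟩, by linear_combination hw⟩
  exact ⟨hc, span_ps _ hc⟩

theorem psC_mul_psbC (I : Ideal (𝓞 F)) (hI : IsCoprime I (Ideal.span {up HC.f F})) :
    psC F I * psbC F I = (Ideal.absNorm I : ℂ) :=
  normsq_psC_of I (psi_spec I hI).1

/-- the absolute value of `ψ_F` -/
theorem norm_psC_le (I : Ideal (𝓞 F)) :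
    ‖psC F I‖ ≤ (Ideal.absNorm I : ℝ) ^ (1 / 2 : ℝ) := by
  by_cases hI : IsCoprime (Ideal.relNorm (𝓞 K) I) (Ideal.span {HC.f})
  · have h := normsq_psC_of I hI
    rw [psbC, Complex.mul_conj, Complex.normSq_eq_norm_sq] at h
    have h' : ‖psC F I‖ ^ 2 = (Ideal.absNorm I : ℝ) := by exact_mod_cast h
    rw [← h', ← Real.sqrt_eq_rpow, Real.sqrt_sq (norm_nonneg _)]
  · rw [psC, psi, ps_of_not_coprime _ hI]
    simp only [map_zero, norm_zero]
    positivity

theorem norm_psbC_le (I : Ideal (𝓞 F)) :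
    ‖psbC F I‖ ≤ (Ideal.absNorm I : ℝ) ^ (1 / 2 : ℝ) := by
  rw [psbC, RCLike.norm_conj]
  exact norm_psC_le I

/-- `ψ_F` of principal ideals in a class modulo `f` -/
theorem psi_span (t : 𝓞 F) (ht : IsCoprime (Ideal.span {t}) (Ideal.span {up HC.f F})) :
    ∃ ε : (𝓞 K)ˣ, ∀ r : 𝓞 F, up HC.f F ∣ r - t → psi F (Ideal.span {r}) = ε * nK r := by
  have hc : IsCoprime (nK t) HC.f := by
    rw [Ideal.isCoprime_span_singleton_iff] at ht
    obtain ⟨x, y, hxy⟩ := ht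
    have h1 := nK_congr (F := F) HC.f (x * t) 1 ⟨-y, by linear_combination hxy⟩
    rw [nK_mul, nK_one] at h1
    obtain ⟨w, hw⟩ := h1
    exact ⟨nK x, -w, by linear_combination hw⟩
  obtain ⟨ε, hε⟩ := exists_eps _ hc
  refine ⟨ε, fun r hr => ?_⟩
  rw [psi, relNorm_span]
  exact hε _ (nK_congr (F := F) HC.f r t hr)

end

end Pool.Agent.Lib.MP_1a91b9_ntX.AN
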