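import Pool.Agent.Lib.MP_1a91b9_ntX.AN.ESum
import Pool.Agent.Lib.MP_1a91b9_ntX.DS.Defs
import Pool.Agent.Lib.MP_1a91b9_ntT.TG.Analytic

/-!
# Analysis for `y² = x³ + D`: the analytic side of the towers
-/

set_option autoImplicit false

namespace Pool.Agent.Lib.MP_1a91b9_ntX.AN

open NumberField IsDedekindDomain WeierstrassCurve Module Pool.Agent.Lib.MP_1a91b9_nt
  Pool.Agent.Lib.MP_1a91b9_ntT Pool.Agent.Lib.MP_1a91b9_ntG
open Pool.Agent.Lib.MP_1a91b9_ntX.DS (TowerG)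
open Pool.Agent.Lib.MP_1a91b9_ntT.DS (UnrL)
open Pool.Agent.Lib.MP_1a91b9_ntT.S4 (Lf)
open Pool.Agent.Lib.MP_1a91b9_ntT.S5 (below mem_below exists_above below_below)

universe u

section
variable [DD] [HC]
  {P : ∀ (F : Type u) [Field F] [NumberField F] [Algebra K F], Prop}
  {ℓ : ℕ} (hℓ : ℓ.Prime) {F : Type u} [Field F] [NumberField F] [Algebra K F]
include hℓ

theorem not_three_dvd (h3 : ℓ ≠ 3)
    (hn : ∀ (F : Type u) [Field F] [NumberField F] [Algebra K F], P F → ¬ 3 ∣ finrank K F)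
    (h : TowerG P ℓ F) : ¬ 3 ∣ finrank K F := by
  have h3' : ¬ 3 ∣ ℓ := by
    intro h4
    exact h3 ((Nat.prime_dvd_prime_iff_eq Nat.prime_three hℓ).1 h4).symm
  induction h with
  | base F hb => exact hn F hb
  | step F F' hG hr hu ha h ih =>
    rw [← Module.finrank_mul_finrank K F F', hr, Nat.prime_three.dvd_mul]
    rintro (h1 | h1)
    · exact ih h1
    · exact h3' h1

theorem unr_tower
    (hUr : ∀ (F : Type u) [Field F] [NumberField F] [Algebra K F], P F → UnrL ℓ F)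
    (h : TowerG P ℓ F) :
    ∀ q : HeightOneSpectrum (𝓞 K), (ℓ : 𝓞 K) ∈ q.asIdeal → ¬ MP_1a91b9_ntT3.Ram F q := by
  induction h with
  | base F hb => exact fun q hq => TG.not_ram_of_unr (hUr F hb) hℓ.ne_zero q hq
  | step F F' hG hr hu ha h ih =>
    intro q hq
    refine MP_1a91b9_ntT3.S8.not_ram_tower (F := F) q (ih q hq) fun v hv => hu v ?_
    subst hv
    rw [mem_below, map_natCast] at hq
    exact hq

theorem uq_tower
    (hUr : ∀ (F : Type u) [Field F] [NumberField F] [Algebra K F], P F → UnrL ℓ F)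
    (h : TowerG P ℓ F) : Ell.UQ ℓ F :=
  MP_1a91b9_ntT3.S8.uq_of_unram ℓ hℓ F fun v hv => unr_tower hℓ hUr h v hv

theorem valueProp_tower (h3 : ℓ ≠ 3)
    (hn : ∀ (F : Type u) [Field F] [NumberField F] [Algebra K F], P F → ¬ 3 ∣ finrank K F)
    (hUr : ∀ (F : Type u) [Field F] [NumberField F] [Algebra K F], P F → UnrL ℓ F)
    (h : TowerG P ℓ F) : ValueProp HC.f ℓ Om F :=
  valueProp_of hℓ h3 F (not_three_dvd hℓ h3 hn h) (uq_tower hℓ hUr h)

theorem unitProp_tower (h3 : ℓ ≠ 3) (hfℓ : IsCoprime (HC.f : 𝓞 K) (ℓ : 𝓞 K))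
    (hn : ∀ (F : Type u) [Field F] [NumberField F] [Algebra K F], P F → ¬ 3 ∣ finrank K F)
    (hUr : ∀ (F : Type u) [Field F] [NumberField F] [Algebra K F], P F → UnrL ℓ F)
    (hU : ∀ (F : Type u) [Field F] [NumberField F] [Algebra K F], P F → UnitProp ℓ Om F)
    (h2 : ℓ ≠ 2) (h : TowerG P ℓ F) : UnitProp ℓ Om F := by
  have hp : Fact ℓ.Prime := ⟨hℓ⟩
  induction h with
  | base F h => exact hU F h
  | step F F' hG hr hu ha h ih =>
    obtain ⟨x, -, hx1, hx2⟩ := CF.reciprocity F F' ℓ (by have := hℓ.two_le; omega) hr fun v hv h3v =>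
      hu v h3v ((ram_eq v).mpr hv)
    have hx := cfData_of hℓ hr x hx1 hx2
    exact step_main hr x hx hfℓ (fun v hv h1 => hu v h1 hv) (fun v hv _ => ha v hv)
      (valueProp_tower hℓ h3 hn hUr h)
      (valueProp_tower hℓ h3 hn hUr (TowerG.step F F' hG hr hu ha h)) ih

/-- the series of `F` continues and does not vanish at `1` -/
theorem lgood_tower (h3 : ℓ ≠ 3) (hfℓ : IsCoprime (HC.f : 𝓞 K) (ℓ : 𝓞 K))
    (hn : ∀ (F : Type u) [Field F] [NumberField F] [Algebra K F], P F → ¬ 3 ∣ finrank K F)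
    (hUr : ∀ (F : Type u) [Field F] [NumberField F] [Algebra K F], P F → UnrL ℓ F)
    (hU : ∀ (F : Type u) [Field F] [NumberField F] [Algebra K F], P F → UnitProp ℓ Om F)
    (h2 : ℓ ≠ 2) (h : TowerG P ℓ F) : LGood F := by
  obtain ⟨L, hL, hL1, hLW⟩ := unitProp_tower hℓ h3 hfℓ hn hUr hU h2 h
  obtain ⟨W, hW⟩ := Ell.d3_exists hℓ
  exact ⟨L, hL, hL1, S4.UnitProp.ne_zero (hLW W hW)⟩

end

/-- the conductor is prime to almost all primes -/
theorem coprime_f [DD] [HC] {ℓ : ℕ} (hℓ : ℓ.Prime) (h : ¬ (ℓ : ℤ) ∣ 6 * DD.D) :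
    IsCoprime (HC.f : 𝓞 K) (ℓ : 𝓞 K) := by
  rw [← Ideal.isCoprime_span_singleton_iff, Ideal.isCoprime_iff_sup_eq]
  by_contra hc
  obtain ⟨P, hP, hle⟩ := Ideal.exists_le_maximal _ hc
  have hfP : HC.f ∈ P := hle (Ideal.mem_sup_left (Ideal.mem_span_singleton_self _))
  have hlP : (ℓ : 𝓞 K) ∈ P := hle (Ideal.mem_sup_right (Ideal.mem_span_singleton_self _))
  have hP0 : P ≠ ⊥ := by
    rintro rfl
    exact f_ne (by simpa using hfP)
  have h6 := HC.hd.good ⟨P, hP.isPrime, hP0⟩ hfP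
  have hcop : IsCoprime (ℓ : ℤ) (6 * DD.D) :=
    (Nat.prime_iff_prime_int.1 hℓ).coprime_iff_not_dvd.2 h
  obtain ⟨a, b, hab⟩ := hcop
  apply hP.ne_top
  rw [Ideal.eq_top_iff_one]
  have h1 := congrArg (Int.cast (R := 𝓞 K)) hab
  push_cast at h1
  rw [← h1]
  refine P.add_mem (P.mul_mem_left _ hlP) (P.mul_mem_left _ ?_)
  have h7 : ((6 * DD.D : ℤ) : 𝓞 K) ∈ P := h6
  push_cast at h7
  exact h7

end Pool.Agent.Lib.MP_1a91b9_ntX.AN
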