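import Pool.Agent.Lib.MP_1a91b9_ntX.AN.Family
import Pool.Agent.Lib.MP_1a91b9_ntG.Vals

/-!
# G4: valuations
-/

set_option autoImplicit false

namespace Pool.Agent.Lib.MP_1a91b9_ntX.AN

open NumberField IsDedekindDomain Pool.Agent.Lib.MP_1a91b9_nt Pool.Agent.Lib.MP_1a91b9_ntT
  Pool.Agent.Lib.MP_1a91b9_ntT.S4 Pool.Agent.Lib.MP_1a91b9_ntG

universe u

section
variable {F : Type u} [Field F] [NumberField F] {ℓ : ℕ} [hℓ : Fact ℓ.Prime]

variable [Algebra K F] [DD] [HC]

/-- The Euler factor at `1`. -/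
theorem euler_at_one (v : HeightOneSpectrum (𝓞 F)) (h3 : up HC.f F ∉ v.asIdeal) :
    psC F v.asIdeal ≠ 0 ∧ 1 - psbC F v.asIdeal * (Ideal.absNorm v.asIdeal : ℂ) ^ (-1 : ℂ) =
      (psC F v.asIdeal - 1) / psC F v.asIdeal := by
  have h1 := psC_mul_psbC  v.asIdeal (coprime_of_not_mem v _ h3)
  have hN : (Ideal.absNorm v.asIdeal : ℂ) ≠ 0 := by
    have := Ideal.absNorm_ne_zero_iff_mem_nonZeroDivisors.mpr
      (mem_nonZeroDivisors_iff_ne_zero.mpr v.ne_bot)
    exact_mod_cast this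
  have h0 : psC F v.asIdeal ≠ 0 := by
    intro h
    rw [h, zero_mul] at h1
    exact hN h1.symm
  have h2 : psbC F v.asIdeal ≠ 0 := by
    rw [psbC]
    exact (map_ne_zero _).mpr h0
  refine ⟨h0, ?_⟩
  rw [Complex.cpow_neg_one, ← h1]
  field_simp

include hℓ in
/-- the Euler factor at an admissible place -/
theorem val_euler (W : ValuationSubring ℂ) (hW : (ℓ : ℂ)⁻¹ ∉ W) (v : HeightOneSpectrum (𝓞 F))
    (h3 : up HC.f F ∉ v.asIdeal) (hv : (ℓ : 𝓞 F) ∉ v.asIdeal)
    (ha : IsCoprime (psi F v.asIdeal - 1) (ℓ : 𝓞 K)) :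
    W.valuation (1 - psbC F v.asIdeal * (Ideal.absNorm v.asIdeal : ℂ) ^ (-1 : ℂ)) = 1 := by
  obtain ⟨h0, e⟩ := euler_at_one  v h3
  have hi : IsIntegral ℤ (psC F v.asIdeal) := isIntegral_psC _
  have hib : IsIntegral ℤ (psbC F v.asIdeal) := hi.map (starRingEnd ℂ).toIntAlgHom
  have h5 : W.valuation (psC F v.asIdeal) = 1 := by
    refine val_eq_one_of_mul W (val_integral W hi) (val_integral W hib) ?_
    rw [psC_mul_psbC  v.asIdeal (coprime_of_not_mem v _ h3)]
    exact val_coprime W hW _ (absNorm_coprime v hv)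
  have h4 : W.valuation (psC F v.asIdeal - 1) = 1 := by
    obtain ⟨a, b, hab⟩ := ha
    have hK : ∀ x : 𝓞 K, IsIntegral ℤ (embK (x : K)) := by
      intro x
      have h : IsIntegral ℤ (x : K) := RingOfIntegers.isIntegral_coe _
      exact h.map embK.toRingHom.toIntAlgHom
    have h6 : (psC F v.asIdeal - 1) * embK (a : K) = 1 + -((ℓ : ℂ) * embK (b : K)) := by
      have h7 := congrArg (fun x : 𝓞 K => embK (x : K)) hab
      simp only [map_add, map_mul, map_sub, map_one, map_natCast] at h7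
      rw [psC]
      linear_combination h7
    refine val_eq_one_of_mul W (val_integral W (hi.sub isIntegral_one))
      (val_integral W (hK a)) ?_
    rw [h6]
    refine val_unit_add W (map_one _) ?_
    rw [Valuation.map_neg, map_mul]
    calc W.valuation (ℓ : ℂ) * _ ≤ W.valuation (ℓ : ℂ) * 1 :=
          mul_le_mul_right (val_integral W (hK b)) _
      _ < 1 := by rw [mul_one]; exact val_q W hW
  rw [e, map_div₀, h5, h4, div_one]

end

end Pool.Agent.Lib.MP_1a91b9_ntX.AN
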